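import Pool.Agent.H32.IxF

set_option autoImplicit false

open Pool.Agent.H32.Ix in
theorem Pool.Agent.Results.MP_3f621b_al.PClass.result {X : Type} (a b : X ≃. X) :
    PC a b ↔ (∀ n, 1 ≤ n → num a (Cyc a n) = num b (Cyc b n)) ∧
      num a (Dbl a) = num b (Dbl b) ∧ num a (Rr a) = num b (Rr b) ∧
        num a (Ter a ⊤) = num b (Ter b ⊤) ∧ HallI a b ∧ HallI b a :=
  main2 a b
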